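import Mathlib
import Pool.Agent.Lib.MP_d0b36d_nt.Even

set_option autoImplicit false

namespace Pool.Agent.Results.MP_d0b36d_nt.EvenExponents

/-- Let `n ≥ 4` be even, `2^v ∣ n` with `v ≥ 1`.
(1) If `k^n + (k+1)^n + ... + (k+m)^n = (k+m+1)^n` with `k, m ≥ 1` then the number `m + 1` of terms
is at least `2^(v+3) - 1` (so at least `15`) and `5 (k+m+1) < 8 n`.
(2) In particular there is no solution of degree `n` if `n ≤ 5 * 2^v`, i.e. if the odd part of `n`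
is `1`, `3` or `5`. -/
theorem result :
    (∀ n v k m : ℕ, 4 ≤ n → 1 ≤ v → 2 ^ v ∣ n → 0 < k → 0 < m →
      ∑ i ∈ Finset.Icc k (k + m), i ^ n = (k + m + 1) ^ n →
      2 ^ (v + 3) ≤ (m + 1) + 1 ∧ 5 * (k + m + 1) < 8 * n) ∧
    (∀ n v k m : ℕ, 4 ≤ n → 1 ≤ v → 2 ^ v ∣ n → n ≤ 5 * 2 ^ v → 0 < k → 0 < m →
      ∑ i ∈ Finset.Icc k (k + m), i ^ n ≠ (k + m + 1) ^ n) := by
  have A : ∀ n v k m : ℕ, 4 ≤ n → 1 ≤ v → 2 ^ v ∣ n → 0 < k → 0 < m →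
      ∑ i ∈ Finset.Icc k (k + m), i ^ n = (k + m + 1) ^ n →
      2 ^ (v + 3) ≤ (m + 1) + 1 ∧ 5 * (k + m + 1) < 8 * n := by
    intro n v k m hn hv hdvd hk hm h
    obtain ⟨t, rfl⟩ := hdvd
    have e : Finset.Ico k (k + m + 1) = Finset.Icc k (k + m) := by
      ext i
      simp only [Finset.mem_Ico, Finset.mem_Icc]
      omega
    rw [← e] at h
    have := Pool.Agent.Lib.MP_d0b36d_nt.even_case hv hn hk (show k + 2 ≤ k + m + 1 by omega) h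
    obtain ⟨h1, h2⟩ := this
    exact ⟨by omega, h2⟩
  refine ⟨A, ?_⟩
  intro n v k m hn hv hdvd hle hk hm h
  obtain ⟨h1, h2⟩ := A n v k m hn hv hdvd hk hm h
  have h3 : 2 ^ (v + 3) = 8 * 2 ^ v := by ring
  omega

end Pool.Agent.Results.MP_d0b36d_nt.EvenExponents
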