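import Mathlib
import Pool.Agent.Lib.MP_d0b36d_nt.LS.Final

set_option autoImplicit false

namespace Pool.Agent.Results.MP_d0b36d_nt.LogSquared

open Finset

/-- There is a constant `C` such that for every integer `X ≥ 2`:
the set of the triples `(n, k, m)` with `4 ≤ n ≤ X`, `k, m ≥ 1` and
`k^n + (k+1)^n + ... + (k+m)^n = (k+m+1)^n` is finite with at most `C (log X)^2` elements, and
the number of the exponents `1 ≤ n ≤ X` for which such `k, m` exist is at most `C (log X)^2`. -/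
theorem result : ∃ C : ℝ, ∀ X : ℕ, 2 ≤ X →
    {q : ℕ × ℕ × ℕ | ∃ n k m : ℕ, q = (n, k, m) ∧ 4 ≤ n ∧ n ≤ X ∧ 1 ≤ k ∧ 1 ≤ m ∧
      ∑ i ∈ Icc k (k + m), i ^ n = (k + m + 1) ^ n}.Finite ∧
    ({q : ℕ × ℕ × ℕ | ∃ n k m : ℕ, q = (n, k, m) ∧ 4 ≤ n ∧ n ≤ X ∧ 1 ≤ k ∧ 1 ≤ m ∧
      ∑ i ∈ Icc k (k + m), i ^ n = (k + m + 1) ^ n}.ncard : ℝ) ≤ C * Real.log X ^ 2 ∧
    ({n : ℕ | 1 ≤ n ∧ n ≤ X ∧ ∃ k m : ℕ, 1 ≤ k ∧ 1 ≤ m ∧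
      ∑ i ∈ Icc k (k + m), i ^ n = (k + m + 1) ^ n}.ncard : ℝ) ≤ C * Real.log X ^ 2 :=
  Pool.Agent.Lib.MP_d0b36d_nt.LS.final

end Pool.Agent.Results.MP_d0b36d_nt.LogSquared
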