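import Mathlib
import Pool.Agent.Lib.MP_d0b36d_nt.LB.Final

set_option autoImplicit false

namespace Pool.Agent.Results.MP_d0b36d_nt.MoserBound

open Finset

/-- Let `n > 3`, `k, m ≥ 1` and `k^n + (k+1)^n + ... + (k+m)^n = N^n` with `N = k + m + 1`.
Unless the sum is short, `2 n / (2 N - 3)` is a convergent of the continued fraction of `log 2`
(it is one as soon as `10^8 N^2 ≤ exp (5 (m+1) / 8)`); there is no solution with at most `74000`
terms; and `n > 10^10000`. -/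
theorem result : ∀ n k m : ℕ, 3 < n → 0 < k → 0 < m →
    ∑ i ∈ Icc k (k + m), i ^ n = (k + m + 1) ^ n →
    (10 ^ 8 * ((k + m + 1 : ℕ) : ℝ) ^ 2 ≤ Real.exp (5 / 8 * ((m + 1 : ℕ) : ℝ)) →
      ∃ i : ℕ, (2 * (n : ℚ)) / (2 * ((k + m + 1 : ℕ) : ℚ) - 3) = (Real.log 2).convergent i) ∧
    74000 < m + 1 ∧ 10 ^ 10000 < n :=
  Pool.Agent.Lib.MP_d0b36d_nt.LB.final

end Pool.Agent.Results.MP_d0b36d_nt.MoserBound
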