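import Mathlib
import Pool.Agent.Lib.MP_d0b36d_nt.Odd

set_option autoImplicit false

namespace Pool.Agent.Results.MP_d0b36d_nt.OddExponents

/-- For every odd `n > 3` there are no positive integers `k`, `m` with
`k^n + (k+1)^n + ... + (k+m)^n = (k+m+1)^n`. -/
theorem result : ∀ n k m : ℕ, Odd n → 3 < n → 0 < k → 0 < m →
    ∑ i ∈ Finset.Icc k (k + m), i ^ n ≠ (k + m + 1) ^ n := by
  intro n k m hn h3 hk hm
  have h5 : 5 ≤ n := by
    obtain ⟨s, hs⟩ := hn
    omega
  have := Pool.Agent.Lib.MP_d0b36d_nt.odd_case hn h5 hk (show k + 2 ≤ k + m + 1 by omega)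
  have e : Finset.Ico k (k + m + 1) = Finset.Icc k (k + m) := by
    ext i
    simp only [Finset.mem_Ico, Finset.mem_Icc]
    omega
  rw [← e]
  exact this

end Pool.Agent.Results.MP_d0b36d_nt.OddExponents
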